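import Pool.Agent.H67.RFZ.Mag

/-!
# Rows ANN and LB (helper67)
-/

set_option autoImplicit false

open MeasureTheory ProbabilityTheory

namespace Pool.Agent.H67.RFZ

open Pool.Agent.H98.RFC Pool.Agent.H98.RFZ

theorem fdet_add (p x y : Site) : fdet p (x + y) = fdet p x + fdet p y := by
  simp only [fdet, Prod.fst_add, Prod.snd_add]
  ring

theorem gdot_add (p x y : Site) : gdot p (x + y) = gdot p x + gdot p y := by
  simp only [gdot, Prod.fst_add, Prod.snd_add]
  ring

theorem nrm_pos {p : Site} (hp : p ≠ 0) : 0 < nrm p := by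
  unfold nrm
  refine Real.sqrt_pos.2 ?_
  have h1 : 0 < nsq p := by
    unfold nsq
    rcases eq_or_ne p.1 0 with h | h
    · have h2 : p.2 ≠ 0 := fun h2 => hp (Prod.ext h h2)
      positivity
    · positivity
  exact_mod_cast h1

/-- the event that `0` is in the disagreement set of `D`, for the field `ε η` -/
def ev (R : ℕ) (J : Site → ℝ) (ε : ℝ) (x : Site) (D : Finset Site) : Set (Site → ℝ) :=
  {η | x ∈ Ds R J (fun z => ε * η z) D}

theorem ev_meas (R : ℕ) (J : Site → ℝ) (ε : ℝ) (x : Site) (D : Finset Site) :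
    MeasurableSet (ev R J ε x D) := by
  have h1 : Measurable fun η : Site → ℝ => fun z => ε * η z :=
    measurable_pi_lambda _ fun x => measurable_const.mul (measurable_pi_apply x)
  exact h1 (mem_Ds_meas R J D x)

/-- translation: the probability that `x` is in the disagreement set of `x + D` -/
theorem ev_trans (hTRA : Z_TRA) (hTRG : Pool.Agent.H98.RFC.T_TRG) (R : ℕ) (J : Site → ℝ) (ε : ℝ)
    (x : Site) (D : Finset Site) :
    gam (ev R J ε x (D.image fun z => x + z)) = gam (ev R J ε 0 D) := by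
  have h1 : ev R J ε x (D.image fun z => x + z) =
      (fun (η : Site → ℝ) (z : Site) => η (x + z)) ⁻¹' (ev R J ε 0 D) := by
    ext η
    simp only [ev, Set.mem_ofPred_eq, Set.mem_preimage]
    rw [hTRA R J (fun z => ε * η z) D x, Finset.mem_image]
    constructor
    · rintro ⟨z, hz, hxz⟩
      have : z = 0 := by simpa using hxz
      rwa [this] at hz
    · intro h
      exact ⟨0, h, add_zero x⟩
  have h2 : Measurable (fun (η : Site → ℝ) (z : Site) => η (x + z)) :=
    measurable_pi_lambda _ fun z => measurable_pi_apply (x + z)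
  rw [h1, ← Measure.map_apply h2 (ev_meas R J ε 0 D), hTRG x]

instance : IsProbabilityMeasure gam := by
  unfold gam
  infer_instance

theorem pf_ANN (hDM : Z_DM) (hTRA : Z_TRA) (_ : Z_MEA) (hTRG : Pool.Agent.H98.RFC.T_TRG)
    (hRCT : P_RCT) : P_ANN := by
  classical
  intro R J hJ ε hε p K w hp hK hw x hx1 hx2 hx3
  have hn := nrm_pos hp
  have hin : ∀ w' : ℝ, 0 ≤ w' → ∀ z : Site, z ∈ rect p K w' ↔
      |(fdet p z : ℝ)| ≤ w' * nrm p ∧ |(gdot p z : ℝ)| ≤ K * w' * nrm p :=
    fun w' hw' => (hRCT p K w' hp hK hw').1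
  set W : Finset Site := (rect p K (w / 2)).image fun z => x + z with hW
  have hWsub : W ⊆ rect p K (4 * w) \ rect p K w := by
    intro y hy
    rw [hW, Finset.mem_image] at hy
    obtain ⟨z, hz, rfl⟩ := hy
    obtain ⟨hz1, hz2⟩ := (hin (w / 2) (by linarith) z).1 hz
    have hf : ((fdet p (x + z) : ℤ) : ℝ) = fdet p x + fdet p z := by rw [fdet_add]; push_cast; rfl
    have hg : ((gdot p (x + z) : ℤ) : ℝ) = gdot p x + gdot p z := by rw [gdot_add]; push_cast; rfl
    have hwn : 0 < w * nrm p := by positivity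
    have hKwn : 0 < K * w * nrm p := by positivity
    rw [Finset.mem_sdiff, hin (4 * w) (by linarith), hin w hw.le, hf, hg]
    refine ⟨⟨?_, ?_⟩, ?_⟩
    · refine (abs_add_le _ _).trans ?_
      nlinarith
    · refine (abs_add_le _ _).trans ?_
      nlinarith
    · rintro ⟨h1, h2⟩
      have h4 : |(fdet p x : ℝ)| ≤ |(fdet p x : ℝ) + fdet p z| + |(fdet p z : ℝ)| := by
        have := abs_sub_abs_le_abs_sub ((fdet p x : ℝ) + fdet p z) (fdet p z : ℝ)
        have h5 := abs_add_le ((fdet p x : ℝ) + fdet p z) (-(fdet p z : ℝ))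
        rw [abs_neg, add_neg_cancel_right] at h5
        exact h5
      have h6 : |(gdot p x : ℝ)| ≤ |(gdot p x : ℝ) + gdot p z| + |(gdot p z : ℝ)| := by
        have h5 := abs_add_le ((gdot p x : ℝ) + gdot p z) (-(gdot p z : ℝ))
        rw [abs_neg, add_neg_cancel_right] at h5
        exact h5
      rcases hx3 with h7 | h7
      · nlinarith
      · nlinarith
  have h0 : (0 : Site) ∈ rect p K (w / 2) := by
    rw [hin (w / 2) (by linarith)]
    have h1 : fdet p 0 = 0 := by simp [fdet]
    have h2 : gdot p 0 = 0 := by simp [gdot]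
    rw [h1, h2]
    simp only [Int.cast_zero, abs_zero]
    constructor <;> positivity
  have hxW : x ∈ W := by
    rw [hW, Finset.mem_image]
    exact ⟨0, h0, add_zero x⟩
  have hsub : ev R J ε x (rect p K (4 * w) \ rect p K w) ⊆ ev R J ε x W := by
    intro η hη
    exact hDM R J hJ (fun z => ε * η z) W _ hWsub (Finset.mem_inter.2 ⟨hη, hxW⟩)
  have h1 : gam (ev R J ε x (rect p K (4 * w) \ rect p K w)) ≤
      gam (ev R J ε 0 (rect p K (w / 2))) :=
    (measure_mono hsub).trans (ev_trans hTRA hTRG R J ε x _).le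
  exact ENNReal.toReal_mono (measure_ne_top _ _) h1

/-- the number of points of `V` in the disagreement set as a sum of indicators -/
theorem card_eq (R : ℕ) (J : Site → ℝ) (ε : ℝ) (V D : Finset Site) (η : Site → ℝ) :
    ((Ds R J (fun x => ε * η x) D ∩ V).card : ℝ) =
      ∑ x ∈ V, (ev R J ε x D).indicator (fun _ => (1 : ℝ)) η := by
  classical
  rw [Finset.inter_comm, ← Finset.filter_mem_eq_inter, Finset.card_filter]
  push_cast
  refine Finset.sum_congr rfl fun x _ => ?_
  by_cases h : x ∈ Ds R J (fun x => ε * η x) D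
  · rw [if_pos h, Set.indicator_of_mem (show η ∈ ev R J ε x D from h)]
  · rw [if_neg h, Set.indicator_of_notMem (show η ∉ ev R J ε x D from h)]

theorem int_card (R : ℕ) (J : Site → ℝ) (ε : ℝ) (V D : Finset Site) :
    ∫ η, ((Ds R J (fun x => ε * η x) D ∩ V).card : ℝ) ∂gam =
      ∑ x ∈ V, (gam (ev R J ε x D)).toReal := by
  simp_rw [card_eq]
  rw [integral_finsetSum]
  · refine Finset.sum_congr rfl fun x _ => ?_
    rw [integral_indicator_const _ (ev_meas R J ε x D), smul_eq_mul, mul_one]
    rfl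
  · intro x _
    exact (integrable_const (1 : ℝ)).indicator (ev_meas R J ε x D)

theorem pf_LB (hDM : Z_DM) (hTRA : Z_TRA) (_ : Z_MEA) (hTRG : Pool.Agent.H98.RFC.T_TRG)
    (hRCT : P_RCT) : P_LB := by
  classical
  intro R J hJ ε hε p K w hp hK hw
  rw [int_card, ← nsmul_eq_mul, ← Finset.sum_const]
  refine Finset.sum_le_sum fun x hx => ?_
  obtain ⟨_, hmono, _, htr⟩ := hRCT p K w hp hK hw
  have hsub := htr x hx
  have hx4 : x ∈ rect p K (4 * w) := hmono (4 * w) (by linarith) hx
  have h1 : ev R J ε x ((rect p K (5 * w)).image fun z => x + z) ⊆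
      ev R J ε x (rect p K (4 * w)) := by
    intro η hη
    exact hDM R J hJ (fun z => ε * η z) (rect p K (4 * w)) _ hsub (Finset.mem_inter.2 ⟨hη, hx4⟩)
  have h2 : gam (ev R J ε 0 (rect p K (5 * w))) ≤ gam (ev R J ε x (rect p K (4 * w))) :=
    (ev_trans hTRA hTRG R J ε x _).ge.trans (measure_mono h1)
  exact ENNReal.toReal_mono (measure_ne_top _ _) h2

end Pool.Agent.H67.RFZ
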