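import Pool.Agent.H98.RFZ.Targets
import Pool.Agent.H98.RFC.Targets

/-!
# Rows LOC, MEA and MAG: the disagreement set (helper67)
-/

set_option autoImplicit false

open MeasureTheory ProbabilityTheory

namespace Pool.Agent.H67.RFZ

open Pool.Agent.H98.RFC Pool.Agent.H98.RFZ

theorem en_congr (R : ℕ) (J h h' : Site → ℝ) (Λ : Finset Site) (hh : ∀ z ∈ Λ, h z = h' z)
    (A : Set Site) : en R J h Λ A = en R J h' Λ A := by
  unfold en
  congr 1
  exact Finset.sum_congr rfl fun x hx => by rw [hh x hx]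

theorem pf_LOC : Z_LOC := by
  intro R J h h' Λ hh
  have h1 : ∀ B : Set Site, gs R J h Λ B = gs R J h' Λ B := by
    intro B
    unfold gs
    refine Finset.filter_congr fun S _ => ?_
    simp only [en_congr R J h h' Λ hh]
  unfold Ds gp gn
  simp only [h1]

theorem en_meas (R : ℕ) (J : Site → ℝ) (Λ : Finset Site) (A : Set Site) :
    Measurable fun h : Site → ℝ => en R J h Λ A := by
  unfold en
  refine measurable_const.sub ?_
  refine Finset.measurable_fun_sum _ fun x _ => ?_
  exact (measurable_pi_apply x).mul measurable_const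

theorem gs_meas (R : ℕ) (J : Site → ℝ) (Λ : Finset Site) (B : Set Site) (S : Finset Site) :
    MeasurableSet {h : Site → ℝ | S ∈ gs R J h Λ B} := by
  have h1 : {h : Site → ℝ | S ∈ gs R J h Λ B} = {_h : Site → ℝ | S ∈ Λ.powerset} ∩
      ⋂ S' ∈ Λ.powerset, {h : Site → ℝ | en R J h Λ (↑S ∪ B) ≤ en R J h Λ (↑S' ∪ B)} := by
    ext h
    simp only [gs, Finset.mem_filter, Set.mem_ofPred_eq, Set.mem_inter_iff, Set.mem_iInter]
  rw [h1]
  refine (MeasurableSet.const _).inter ?_
  refine Finset.measurableSet_biInter _ fun S' _ => ?_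
  exact measurableSet_le (en_meas R J Λ _) (en_meas R J Λ _)

theorem gp_meas (R : ℕ) (J : Site → ℝ) (Λ : Finset Site) (B : Set Site) (x : Site) :
    MeasurableSet {h : Site → ℝ | x ∈ gp R J h Λ B} := by
  have h1 : {h : Site → ℝ | x ∈ gp R J h Λ B} = {_h : Site → ℝ | x ∈ Λ} ∩
      ⋃ S : Finset Site, ({h : Site → ℝ | S ∈ gs R J h Λ B} ∩ {_h : Site → ℝ | x ∈ S}) := by
    ext h
    simp only [gp, Finset.mem_filter, Set.mem_ofPred_eq, Set.mem_inter_iff, Set.mem_iUnion]
  rw [h1]
  refine (MeasurableSet.const _).inter (MeasurableSet.iUnion fun S => ?_)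
  exact (gs_meas R J Λ B S).inter (MeasurableSet.const _)

theorem gn_meas (R : ℕ) (J : Site → ℝ) (Λ : Finset Site) (B : Set Site) (x : Site) :
    MeasurableSet {h : Site → ℝ | x ∈ gn R J h Λ B} := by
  have h1 : {h : Site → ℝ | x ∈ gn R J h Λ B} = {_h : Site → ℝ | x ∈ Λ} ∩
      ⋂ S : Finset Site, ({h : Site → ℝ | S ∈ gs R J h Λ B}ᶜ ∪ {_h : Site → ℝ | x ∈ S}) := by
    ext h
    simp only [gn, Finset.mem_filter, Set.mem_ofPred_eq, Set.mem_inter_iff, Set.mem_iInter,
      Set.mem_union, Set.mem_compl_iff]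
    refine and_congr_right fun _ => forall_congr' fun S => ?_
    tauto
  rw [h1]
  refine (MeasurableSet.const _).inter (MeasurableSet.iInter fun S => ?_)
  exact (gs_meas R J Λ B S).compl.union (MeasurableSet.const _)

theorem mem_Ds_meas (R : ℕ) (J : Site → ℝ) (Λ : Finset Site) (x : Site) :
    MeasurableSet {h : Site → ℝ | x ∈ Ds R J h Λ} := by
  have h1 : {h : Site → ℝ | x ∈ Ds R J h Λ} =
      {h : Site → ℝ | x ∈ gp R J h Λ (↑Λ)ᶜ} \ {h : Site → ℝ | x ∈ gn R J h Λ ∅} := by
    ext h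
    simp only [Ds, Finset.mem_sdiff, Set.mem_ofPred_eq, Set.mem_sdiff]
  rw [h1]
  exact (gp_meas R J Λ _ x).diff (gn_meas R J Λ _ x)

theorem pf_MEA : Z_MEA := by
  intro R J Λ S
  have h1 : {h : Site → ℝ | Ds R J h Λ = S} =
      ⋂ x : Site, {h : Site → ℝ | x ∈ Ds R J h Λ ↔ x ∈ S} := by
    ext h
    simp only [Set.mem_ofPred_eq, Set.mem_iInter, Finset.ext_iff]
  rw [h1]
  refine MeasurableSet.iInter fun x => ?_
  by_cases hx : x ∈ S
  · simp only [hx, iff_true]
    exact mem_Ds_meas R J Λ x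
  · simp only [hx, iff_false]
    exact (mem_Ds_meas R J Λ x).compl

theorem pf_MAG (hUNQ : T_UNQ) (hINF : Z_INF) (_ : Z_MEA) : Z_MAG := by
  classical
  intro R J hJ ε hε L
  have h0 : (0 : Site) ∈ box L := by
    simp [box]
  have hd : Disjoint ((↑(box L) : Set Site)ᶜ) (↑(box L) : Set Site) := disjoint_compl_left
  have ha := hUNQ R J ε hε (box L) (↑(box L))ᶜ hd
  have hb := hUNQ R J ε hε (box L) ∅ (Set.empty_disjoint _)
  set A : Set (Site → ℝ) := {η | (0 : Site) ∈ Ds R J (fun x => ε * η x) (box L)} with hA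
  have hAm : MeasurableSet A := by
    have h1 : Measurable fun η : Site → ℝ => fun x => ε * η x :=
      measurable_pi_lambda _ fun x => measurable_const.mul (measurable_pi_apply x)
    exact h1 (mem_Ds_meas R J (box L) 0)
  have h1 : mag R J 0 ε L = ∫ η, A.indicator (fun _ => (1 : ℝ)) η ∂gam := by
    unfold mag
    refine integral_congr_ae ?_
    filter_upwards [ha, hb] with η h2 h3
    have h4 := hINF R J hJ (fun x => ε * η x) (box L) h2 h3 0 h0
    rw [h4]
    by_cases h5 : (0 : Site) ∈ Ds R J (fun x => ε * η x) (box L)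
    · rw [if_pos h5, Set.indicator_of_mem (show η ∈ A from h5)]
    · rw [if_neg h5, Set.indicator_of_notMem (show η ∉ A from h5)]
  rw [h1, integral_indicator_const _ hAm, smul_eq_mul, mul_one]
  rfl

end Pool.Agent.H67.RFZ
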