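import Pool.Agent.H67.RFZ.LB

/-!
# Row TLB: lower bound for the tension (helper67)
-/

set_option autoImplicit false

open MeasureTheory ProbabilityTheory

namespace Pool.Agent.H67.RFZ

open Pool.Agent.H98.RFC Pool.Agent.H98.RFZ

/-- total coupling of the pairs -/
noncomputable def C0 (R : ℕ) (J : Site → ℝ) (Λ : Finset Site) : ℝ :=
  1 / 2 * ∑ p ∈ prs R Λ, |J (p.1 - p.2)|

theorem abs_sg (A : Set Site) (x : Site) : |sg A x| = 1 := by
  classical
  unfold sg
  split_ifs <;> simp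

theorem en_near (R : ℕ) (J h : Site → ℝ) (Λ : Finset Site) (A : Set Site) :
    |en R J h Λ A + ∑ x ∈ Λ, h x * sg A x| ≤ C0 R J Λ := by
  unfold en C0
  have h1 : -(1 / 2) * ∑ p ∈ prs R Λ, J (p.1 - p.2) * sg A p.1 * sg A p.2 -
      ∑ x ∈ Λ, h x * sg A x + ∑ x ∈ Λ, h x * sg A x =
      -(1 / 2) * ∑ p ∈ prs R Λ, J (p.1 - p.2) * sg A p.1 * sg A p.2 := by ring
  rw [h1, abs_mul, abs_neg, abs_of_pos (by norm_num : (0 : ℝ) < 1 / 2)]
  refine mul_le_mul_of_nonneg_left ?_ (by norm_num)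
  refine (Finset.abs_sum_le_sum_abs _ _).trans (Finset.sum_le_sum fun p _ => ?_)
  rw [abs_mul, abs_mul, abs_sg, abs_sg, mul_one, mul_one]

theorem em_le (R : ℕ) (J h : Site → ℝ) (Λ V : Finset Site) (B : Set Site) (S : Finset Site)
    (hS : S ∈ (Λ \ V).powerset) : em R J h Λ V B ≤ en R J h Λ (↑S ∪ B) :=
  Finset.inf'_le _ hS

theorem em_eq (R : ℕ) (J h : Site → ℝ) (Λ V : Finset Site) (B : Set Site) :
    ∃ S ∈ (Λ \ V).powerset, em R J h Λ V B = en R J h Λ (↑S ∪ B) :=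
  Finset.exists_mem_eq_inf' _ _

theorem field_diff (h : Site → ℝ) (Λ V S : Finset Site) (hV : V ⊆ Λ) (hS : S ⊆ Λ \ V)
    (B : Set Site) (hB : Disjoint B (↑Λ : Set Site)) :
    ∑ x ∈ Λ, h x * sg (↑S ∪ (B ∪ ↑V)) x - ∑ x ∈ Λ, h x * sg (↑S ∪ B) x =
      2 * ∑ x ∈ V, h x := by
  classical
  rw [← Finset.sum_sub_distrib, Finset.mul_sum]
  have h1 : ∀ x ∈ Λ, h x * sg (↑S ∪ (B ∪ ↑V)) x - h x * sg (↑S ∪ B) x =
      if x ∈ V then 2 * h x else 0 := by
    intro x hx
    have hxB : x ∉ B := fun h => Set.disjoint_left.1 hB h hx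
    by_cases hxV : x ∈ V
    · have hxS : x ∉ S := fun h => (Finset.mem_sdiff.1 (hS h)).2 hxV
      rw [if_pos hxV]
      have h2 : sg (↑S ∪ (B ∪ ↑V)) x = 1 := by
        unfold sg
        rw [if_pos]
        exact Or.inr (Or.inr hxV)
      have h3 : sg (↑S ∪ B) x = -1 := by
        unfold sg
        rw [if_neg]
        rintro (h | h)
        · exact hxS h
        · exact hxB h
      rw [h2, h3]
      ring
    · rw [if_neg hxV]
      have h2 : sg (↑S ∪ (B ∪ ↑V)) x = sg (↑S ∪ B) x := by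
        unfold sg
        have h4 : (x ∈ (↑S ∪ (B ∪ ↑V) : Set Site)) ↔ x ∈ (↑S ∪ B : Set Site) := by
          simp [hxV]
        by_cases h5 : x ∈ (↑S ∪ B : Set Site)
        · rw [if_pos (h4.2 h5), if_pos h5]
        · rw [if_neg (fun h6 => h5 (h4.1 h6)), if_neg h5]
      rw [h2, sub_self]
  rw [Finset.sum_congr rfl h1, ← Finset.sum_filter]
  refine Finset.sum_congr ?_ fun _ _ => rfl
  ext x
  simp only [Finset.mem_filter]
  exact ⟨fun h => h.2, fun h => ⟨hV h, h⟩⟩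

theorem ten_le (R : ℕ) (J h : Site → ℝ) (V Λ : Finset Site) (hV : V ⊆ Λ) :
    ten R J h V Λ ≤ 4 * C0 R J Λ := by
  classical
  unfold ten
  obtain ⟨S1, hS1, h1⟩ := em_eq R J h Λ V ((↑Λ)ᶜ ∪ ↑V)
  obtain ⟨S2, hS2, h2⟩ := em_eq R J h Λ V ∅
  have h3 := em_le R J h Λ V (↑Λ)ᶜ S1 hS1
  have h4 := em_le R J h Λ V ↑V S2 hS2
  rw [h1, h2]
  have e1 := abs_le.1 (en_near R J h Λ (↑S1 ∪ (↑Λ)ᶜ))
  have e2 := abs_le.1 (en_near R J h Λ (↑S1 ∪ ((↑Λ)ᶜ ∪ ↑V)))
  have e3 := abs_le.1 (en_near R J h Λ (↑S2 ∪ ↑V))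
  have e4 := abs_le.1 (en_near R J h Λ (↑S2 ∪ ∅))
  have f1 := field_diff h Λ V S1 hV (Finset.mem_powerset.1 hS1) ((↑Λ)ᶜ) disjoint_compl_left
  have f2 := field_diff h Λ V S2 hV (Finset.mem_powerset.1 hS2) ∅ (Set.empty_disjoint _)
  rw [Set.empty_union] at f2
  linarith [e1.1, e1.2, e2.1, e2.2, e3.1, e3.2, e4.1, e4.2]

theorem shift_eq (ε s : ℝ) (V : Finset Site) (η : Site → ℝ) :
    (fun x => ε * shf V s η x) = shf V (ε * s) (fun x => ε * η x) := by
  funext x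
  unfold shf
  split_ifs <;> ring

theorem pf_TLB (hAP : Z_AP) (hGA : Z_GA) (_ : Z_MEA) (hTEN : Z_TEN) (hAREA : P_AREA)
    (hLB : P_LB) : P_TLB := by
  classical
  intro R J hJ ε hε p K w hp hK hw
  set V := rect p K w with hV
  set Λ := rect p K (4 * w) with hΛ
  have hn := nrm_pos hp
  have hw0 : 0 < w := by linarith
  obtain ⟨hcard, _⟩ := hAREA p K w hp hK hw
  have hVΛ : V ⊆ Λ := by
    intro x hx
    rw [hV, rect, Finset.mem_filter] at hx
    rw [hΛ, rect, Finset.mem_filter]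
    obtain ⟨hxb, hx1, hx2⟩ := hx
    refine ⟨?_, hx1.trans (by nlinarith [mul_pos hw0 hn]), hx2.trans ?_⟩
    · have h1 : (⌈(1 + K) * w⌉₊ : ℤ) ≤ (⌈(1 + K) * (4 * w)⌉₊ : ℤ) := by
        have : ⌈(1 + K) * w⌉₊ ≤ ⌈(1 + K) * (4 * w)⌉₊ := Nat.ceil_le_ceil (by nlinarith)
        exact_mod_cast this
      simp only [box, Finset.mem_product, Finset.mem_Icc] at hxb ⊢
      omega
    · have h1 : 0 < K * w * nrm p := by positivity
      nlinarith
  obtain ⟨hten0, _, htenm⟩ := hTEN R J hJ V Λ hVΛ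
  have hvpos : (0 : ℝ) < (V.card : ℝ) := lt_of_lt_of_le (by positivity) hcard
  set a : ℝ := 1 / Real.sqrt (V.card : ℝ) with ha
  have hsv : 0 < Real.sqrt (V.card : ℝ) := Real.sqrt_pos.2 hvpos
  have ha0 : 0 < a := by positivity
  have ha2 : a ^ 2 * (V.card : ℝ) = 1 := by
    rw [ha, div_pow, Real.sq_sqrt hvpos.le]
    field_simp
  set f : (Site → ℝ) → ℝ := fun η => ((Ds R J (fun x => ε * η x) Λ ∩ V).card : ℝ) with hf
  have hfm : Measurable f := by
    have h1 : f = fun η => ∑ x ∈ V, (ev R J ε x Λ).indicator (fun _ => (1 : ℝ)) η := by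
      funext η
      exact card_eq R J ε V Λ η
    rw [h1]
    exact Finset.measurable_fun_sum _ fun x _ => measurable_const.indicator (ev_meas R J ε x Λ)
  have hf0 : ∀ η, 0 ≤ f η := fun η => Nat.cast_nonneg _
  have hfb : ∃ C, ∀ η, f η ≤ C := ⟨V.card, fun η => by
    show ((Ds R J (fun x => ε * η x) Λ ∩ V).card : ℝ) ≤ V.card
    exact_mod_cast Finset.card_le_card Finset.inter_subset_right⟩
  have hGA1 := hGA V a ha0 f hfm hf0 hfb
  rw [ha2] at hGA1
  have hLB1 := hLB R J hJ ε hε.ne' p K w hp hK hw0.le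
  have hinner : ∀ η : Site → ℝ, ∫ s in Set.Icc (-a) a, f (shf V s η) ≤
      (1 / (2 * ε)) * ten R J (fun x => ε * η x) V Λ := by
    intro η
    set h : Site → ℝ := fun x => ε * η x with hh
    have h1 : ∀ s : ℝ, f (shf V s η) = ((Ds R J (shf V (ε * s) h) Λ ∩ V).card : ℝ) := by
      intro s
      show ((Ds R J (fun x => ε * shf V s η x) Λ ∩ V).card : ℝ) = _
      rw [shift_eq]
    have h2 := hAP R J hJ h V Λ hVΛ (-(ε * a)) (ε * a) (by nlinarith [mul_pos hε ha0])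
    simp_rw [h1]
    rw [integral_Icc_eq_integral_Ioc, ← intervalIntegral.integral_of_le (by linarith)]
    rw [integral_Icc_eq_integral_Ioc, ← intervalIntegral.integral_of_le
      (by nlinarith [mul_pos hε ha0])] at h2
    have h3 := intervalIntegral.integral_comp_mul_left (a := -a) (b := a)
      (fun t : ℝ => ((Ds R J (shf V t h) Λ ∩ V).card : ℝ)) hε.ne'
    rw [h3, smul_eq_mul, mul_neg]
    rw [div_mul_eq_mul_div, one_mul, le_div_iff₀ (by positivity)]
    calc ε⁻¹ * (∫ t in -(ε * a)..ε * a, ((Ds R J (shf V t h) Λ ∩ V).card : ℝ)) * (2 * ε)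
        = 2 * ∫ t in -(ε * a)..ε * a, ((Ds R J (shf V t h) Λ ∩ V).card : ℝ) := by
          field_simp
      _ ≤ ten R J h V Λ := h2
  have htenm2 : Measurable fun η : Site → ℝ => ten R J (fun x => ε * η x) V Λ := by
    have h1 : Measurable fun η : Site → ℝ => fun z => ε * η z :=
      measurable_pi_lambda _ fun x => measurable_const.mul (measurable_pi_apply x)
    exact htenm.comp h1
  have htenI : Integrable (fun η : Site → ℝ => ten R J (fun x => ε * η x) V Λ) gam := by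
    refine Integrable.of_bound htenm2.aestronglyMeasurable (4 * C0 R J Λ)
      (Filter.Eventually.of_forall fun η => ?_)
    rw [Real.norm_eq_abs, abs_of_nonneg (hten0 _)]
    exact ten_le R J _ V Λ hVΛ
  have hint : ∫ η, (∫ s in Set.Icc (-a) a, f (shf V s η)) ∂gam ≤
      (1 / (2 * ε)) * ∫ η, ten R J (fun x => ε * η x) V Λ ∂gam := by
    rw [← integral_const_mul]
    refine integral_mono_of_nonneg (Filter.Eventually.of_forall fun η => ?_)
      (htenI.const_mul _) (Filter.Eventually.of_forall hinner)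
    exact integral_nonneg fun s => hf0 _
  set T : ℝ := ∫ η, ten R J (fun x => ε * η x) V Λ ∂gam with hT
  have hT0 : 0 ≤ T := integral_nonneg fun η => hten0 _
  have hexp : Real.exp (1 / 2) ≤ 2 := by
    have h1 : Real.exp (1 / 2) ^ 2 ≤ 2 ^ 2 := by
      rw [← Real.exp_nat_mul]
      have h2 : ((2 : ℕ) : ℝ) * (1 / 2) = 1 := by norm_num
      rw [h2]
      have := Real.exp_one_lt_d9
      linarith
    exact (sq_le_sq₀ (Real.exp_pos _).le (by norm_num)).1 h1
  have hm0 : 0 ≤ mK R J ε p K (5 * w) := ENNReal.toReal_nonneg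
  have hchain : (V.card : ℝ) * mK R J ε p K (5 * w) ≤
      2 * (1 / (2 * a)) * ((1 / (2 * ε)) * T) := by
    refine hLB1.trans (hGA1.trans ?_)
    refine mul_le_mul ?_ hint ?_ (by positivity)
    · exact mul_le_mul_of_nonneg_right hexp (by positivity)
    · exact integral_nonneg fun η => integral_nonneg fun s => hf0 _
  have hsq : Real.sqrt K * w ≤ Real.sqrt (V.card : ℝ) := by
    have h1 : Real.sqrt K * w = Real.sqrt (K * w ^ 2) := by
      rw [Real.sqrt_mul (by linarith), Real.sqrt_sq hw0.le]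
    rw [h1]
    exact Real.sqrt_le_sqrt hcard
  -- `|V| m ≤ sqrt |V| T / (2 ε)`
  have h5 : 2 * (1 / (2 * a)) * ((1 / (2 * ε)) * T) = Real.sqrt (V.card : ℝ) * T / (2 * ε) := by
    rw [ha]
    field_simp
  rw [h5, le_div_iff₀ (by positivity)] at hchain
  have h6 : (V.card : ℝ) = Real.sqrt (V.card : ℝ) * Real.sqrt (V.card : ℝ) :=
    (Real.mul_self_sqrt hvpos.le).symm
  have h7 : Real.sqrt (V.card : ℝ) * (2 * ε * (Real.sqrt (V.card : ℝ) *
      mK R J ε p K (5 * w))) ≤ Real.sqrt (V.card : ℝ) * T := by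
    calc _ = (Real.sqrt (V.card : ℝ) * Real.sqrt (V.card : ℝ)) * mK R J ε p K (5 * w) *
          (2 * ε) := by ring
      _ = (V.card : ℝ) * mK R J ε p K (5 * w) * (2 * ε) := by rw [← h6]
      _ ≤ _ := hchain
  have h8 := le_of_mul_le_mul_left h7 hsv
  calc 2 * ε * Real.sqrt K * w * mK R J ε p K (5 * w)
      = 2 * ε * ((Real.sqrt K * w) * mK R J ε p K (5 * w)) := by ring
    _ ≤ 2 * ε * (Real.sqrt (V.card : ℝ) * mK R J ε p K (5 * w)) := by gcongr
    _ ≤ T := h8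

end Pool.Agent.H67.RFZ
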